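import Pool.Graph.R_seed8.Erdos456.Final2
import Pool.Graph.R_seed8.Erdos456.SecondMoment
import Pool.Graph.R_seed8.Erdos456.PrimesOneMod

/-! Positive lower logarithmic density. -/

set_option autoImplicit false

open scoped ENNReal
open Filter Topology

namespace Pool.Agent.KS6_88.EM

open Pool.Agent.Erdos456

/-- least prime `1 mod n` -/
noncomputable def pn (n : ℕ) : ℕ := sInf {p : ℕ | p.Prime ∧ p ≡ 1 [MOD n]}

def Good (c C : ℝ) : Set ℕ :=
  {n | 1 ≤ n ∧ c * n * Real.log n ≤ mm n ∧ (pn n : ℝ) ≤ C * n * Real.log n}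

theorem many : ∃ κ : ℝ, 0 < κ ∧ ∃ L₀ : ℝ, ∀ L : ℝ, L₀ ≤ L →
    ENNReal.ofReal (κ * L) ≤ mu (1 + 1 / (2 * L)) (Gd L) :=
  many_conv (SM.many_small_p_of primes_one_mod)

theorem harm_le (N : ℕ) : ∑ n ∈ Finset.Icc 1 N, ((n : ℝ))⁻¹ ≤ 1 + Real.log N := by
  have h := harmonic_le_one_add_log N
  rw [harmonic_eq_sum_Icc] at h
  push_cast at h
  exact h

theorem mu_le_sum {σ : ℝ} (hσ : 1 < σ) (E : Set ℕ) (F : Finset ℕ)
    (hE : ∀ n ∈ E, 1 ≤ n → n ∈ F) (hF : ∀ n ∈ F, 1 ≤ n) :
    mu σ E ≤ ENNReal.ofReal (∑ n ∈ F, ((n : ℝ))⁻¹) := by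
  unfold mu
  rw [tsum_eq_sum (s := F)]
  · rw [ENNReal.ofReal_sum_of_nonneg (fun n _ => by positivity)]
    apply Finset.sum_le_sum
    intro n hn
    by_cases h : n ∈ E
    · rw [Set.indicator_of_mem h]
      exact zp_le_inv hσ (hF n hn)
    · rw [Set.indicator_of_notMem h]
      exact zero_le
  · intro n hn
    by_cases h : n ∈ E
    · rw [Set.indicator_of_mem h]
      rcases Nat.eq_zero_or_pos n with rfl | h0
      · exact zp_zero (by linarith)
      · exact absurd (hE n h h0) hn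
    · rw [Set.indicator_of_notMem h]

theorem mu_lo {σ : ℝ} (hσ : 1 < σ) (T : ℝ) (hT : 0 ≤ T) :
    mu σ {n : ℕ | Real.log n ≤ T} ≤ ENNReal.ofReal (1 + T) := by
  have h1 : 1 ≤ Real.exp T := Real.one_le_exp hT
  refine (mu_le_sum hσ _ (Finset.Icc 1 ⌊Real.exp T⌋₊) ?_ ?_).trans ?_
  · intro n hn h0
    rw [Finset.mem_Icc]
    refine ⟨h0, Nat.le_floor ?_⟩
    have h2 : (0:ℝ) < n := by exact_mod_cast h0
    exact (Real.log_le_iff_le_exp h2).mp hn
  · intro n hn
    exact (Finset.mem_Icc.mp hn).1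
  · apply ENNReal.ofReal_le_ofReal
    refine (harm_le _).trans ?_
    have h3 : 1 ≤ ⌊Real.exp T⌋₊ := Nat.le_floor (by simpa using h1)
    have h4 : Real.log (⌊Real.exp T⌋₊ : ℝ) ≤ T := by
      have h5 : (0:ℝ) < (⌊Real.exp T⌋₊ : ℝ) := by exact_mod_cast h3
      rw [Real.log_le_iff_le_exp h5]
      exact Nat.floor_le (Real.exp_pos T).le
    linarith

theorem mu_hi {L : ℝ} (hL : 1 ≤ L) (D : ℝ) (hD : 0 < D) :
    mu (1 + 1 / (2 * L)) {n : ℕ | D * L < Real.log n} ≤
      ENNReal.ofReal (Real.exp (-(D / 4)) * (8 * L)) := by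
  have hL0 : 0 < L := by linarith
  have hσ : 1 < 1 + 1 / (4 * L) := by
    have : 0 < 1 / (4 * L) := by positivity
    linarith
  have hz := ZZ_le hσ
  calc mu (1 + 1 / (2 * L)) {n : ℕ | D * L < Real.log n}
      ≤ ∑' n : ℕ, ENNReal.ofReal (Real.exp (-(D / 4))) * zp (1 + 1 / (4 * L)) n := by
        unfold mu
        apply ENNReal.tsum_le_tsum
        intro n
        by_cases h : n ∈ {n : ℕ | D * L < Real.log n}
        · rw [Set.indicator_of_mem h]
          have h' : D * L < Real.log n := h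
          have hn1 : n ≠ 0 := by
            rintro rfl
            simp only [Nat.cast_zero, Real.log_zero] at h'
            have : 0 < D * L := by positivity
            linarith
          have hn0 : (0:ℝ) < n := by
            have : 0 < n := Nat.pos_of_ne_zero hn1
            exact_mod_cast this
          unfold zp
          rw [← ENNReal.ofReal_mul (Real.exp_pos _).le]
          apply ENNReal.ofReal_le_ofReal
          rw [Real.rpow_def_of_pos hn0, Real.rpow_def_of_pos hn0, ← Real.exp_add]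
          apply Real.exp_le_exp.mpr
          have h2 : 1 / (2 * L) = 1 / (4 * L) + 1 / (4 * L) := by field_simp; norm_num
          have h3 : D / 4 ≤ Real.log n * (1 / (4 * L)) := by
            rw [mul_one_div, le_div_iff₀ (by positivity)]
            have : D / 4 * (4 * L) = D * L := by ring
            linarith
          rw [h2]
          linarith
        · rw [Set.indicator_of_notMem h]
          exact zero_le
    _ = ENNReal.ofReal (Real.exp (-(D / 4))) * ZZ (1 + 1 / (4 * L)) := by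
        rw [ENNReal.tsum_mul_left]; rfl
    _ ≤ ENNReal.ofReal (Real.exp (-(D / 4))) * ENNReal.ofReal (8 * L) := by
        gcongr
        refine hz.trans (ENNReal.ofReal_le_ofReal ?_)
        have h4 : 1 / (1 + 1 / (4 * L) - 1) = 4 * L := by
          rw [add_sub_cancel_left, one_div_one_div]
        rw [h4]
        linarith
    _ = _ := by rw [← ENNReal.ofReal_mul (Real.exp_pos _).le]

theorem pn_le_of {a n : ℕ} (h : (a * n + 1).Prime) : pn n ≤ a * n + 1 := by
  apply Nat.sInf_le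
  refine ⟨h, ?_⟩
  unfold Nat.ModEq
  rw [Nat.add_mod, Nat.mul_mod_left, zero_add, Nat.mod_mod]

theorem core : ∃ c C κ D : ℝ, 0 < c ∧ 0 < C ∧ 0 < κ ∧ 0 < D ∧ ∃ L₀ : ℝ, 1 ≤ L₀ ∧ ∀ L : ℝ, L₀ ≤ L →
    ENNReal.ofReal (κ * L) ≤ mu (1 + 1 / (2 * L)) (Good c C ∩ {n | Real.log n ≤ D * L}) := by
  obtain ⟨κ0, hκ0, L₁, hM⟩ := many
  obtain ⟨c0, hc0, L₂, hL₂, hbad⟩ := bad_set (κ0 / 4) (by positivity)
  set η := κ0 / 8 with hη
  have hη0 : 0 < η := by positivity
  obtain ⟨D, hD0, hD⟩ : ∃ D : ℝ, 0 < D ∧ Real.exp (-(D / 4)) * 8 ≤ κ0 / 8 := by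
    refine ⟨4 * (64 / κ0), by positivity, ?_⟩
    have h1 : 4 * (64 / κ0) / 4 = 64 / κ0 := by ring
    rw [h1]
    have h2 : 64 / κ0 ≤ Real.exp (64 / κ0) := by
      have := Real.add_one_le_exp (64 / κ0)
      linarith
    rw [Real.exp_neg]
    have h3 : (Real.exp (64 / κ0))⁻¹ ≤ (64 / κ0)⁻¹ := inv_anti₀ (by positivity) h2
    rw [inv_div] at h3
    linarith
  refine ⟨c0 / D, 2 / η, κ0 / 4, D, by positivity, by positivity, by positivity, hD0,
    max (max L₁ L₂) (4 / κ0), (hL₂.trans (le_max_right _ _)).trans (le_max_left _ _), ?_⟩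
  intro L hL
  have hLa : L₁ ≤ L := ((le_max_left _ _).trans (le_max_left _ _)).trans hL
  have hLb : L₂ ≤ L := ((le_max_right _ _).trans (le_max_left _ _)).trans hL
  have hLc : 4 / κ0 ≤ L := (le_max_right _ _).trans hL
  have hL1 : 1 ≤ L := hL₂.trans hLb
  have hL0 : 0 < L := by linarith
  set σ : ℝ := 1 + 1 / (2 * L) with hσd
  have hσ : 1 < σ := by
    have : 0 < 1 / (2 * L) := by positivity
    linarith
  have hsub : Gd L ⊆ Bd c0 L ∪ ({n : ℕ | Real.log n ≤ η * L} ∪ ({n : ℕ | D * L < Real.log n} ∪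
      (Good (c0 / D) (2 / η) ∩ {n | Real.log n ≤ D * L}))) := by
    rintro n ⟨hn1, a, ha1, ha2, hap⟩
    by_cases hB : n ∈ Bd c0 L
    · left; exact hB
    right
    by_cases h1 : Real.log n ≤ η * L
    · left; exact h1
    right
    by_cases h2 : D * L < Real.log n
    · left; exact h2
    right
    rw [not_le] at h1
    rw [not_lt] at h2
    have hn' : (1:ℝ) ≤ n := by exact_mod_cast hn1
    have hm : c0 * n * L < mm n := by
      by_contra hcon
      push Not at hcon
      exact hB ⟨hn1, hcon⟩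
    refine ⟨⟨hn1, ?_, ?_⟩, h2⟩
    · refine le_trans ?_ hm.le
      have h3 : Real.log n / D ≤ L := by rw [div_le_iff₀ hD0]; linarith
      calc c0 / D * n * Real.log n = c0 * n * (Real.log n / D) := by ring
        _ ≤ c0 * n * L := by gcongr
    · have hp : (pn n : ℝ) ≤ a * n + 1 := by exact_mod_cast pn_le_of hap
      have h3 : L ≤ Real.log n / η := by rw [le_div_iff₀ hη0]; linarith
      have h4 : (1:ℝ) ≤ L * n := by nlinarith
      calc (pn n : ℝ) ≤ a * n + 1 := hp
        _ ≤ L * n + L * n := by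
            have h3 : (a : ℝ) * n ≤ L * n := by gcongr
            linarith
        _ = 2 * n * L := by ring
        _ ≤ 2 * n * (Real.log n / η) := by gcongr
        _ = 2 / η * n * Real.log n := by ring
  have hX := (hM L hLa).trans (mu_mono σ hsub)
  have hY : mu σ (Bd c0 L ∪ ({n : ℕ | Real.log n ≤ η * L} ∪ ({n : ℕ | D * L < Real.log n} ∪
      (Good (c0 / D) (2 / η) ∩ {n | Real.log n ≤ D * L})))) ≤
      ENNReal.ofReal (κ0 / 4 * L) + (ENNReal.ofReal (1 + η * L) +
        (ENNReal.ofReal (Real.exp (-(D / 4)) * (8 * L)) +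
          mu σ (Good (c0 / D) (2 / η) ∩ {n | Real.log n ≤ D * L}))) := by
    refine (mu_union_le _ _ _).trans (add_le_add (hbad L hLb) ?_)
    refine (mu_union_le _ _ _).trans (add_le_add (mu_lo hσ _ (by positivity)) ?_)
    exact (mu_union_le _ _ _).trans (add_le_add (mu_hi hL1 D hD0) le_rfl)
  have hZ := hX.trans hY
  rw [← add_assoc, ← add_assoc, ← ENNReal.ofReal_add (by positivity) (by positivity),
    ← ENNReal.ofReal_add (by positivity) (by positivity)] at hZ
  by_contra hcon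
  rw [not_le] at hcon
  have hW := hZ.trans (add_le_add le_rfl hcon.le)
  rw [← ENNReal.ofReal_add (by positivity) (by positivity),
    ENNReal.ofReal_le_ofReal_iff (by positivity)] at hW
  have hfin : mu σ (Good (c0 / D) (2 / η) ∩ {n | Real.log n ≤ D * L}) ≠ ⊤ := hcon.ne_top
  have hV : ENNReal.ofReal (κ0 * L) < ENNReal.ofReal
      (κ0 / 4 * L + (1 + η * L) + Real.exp (-(D / 4)) * (8 * L)) + ENNReal.ofReal (κ0 / 4 * L) :=
    hZ.trans_lt (ENNReal.add_lt_add_left ENNReal.ofReal_ne_top hcon)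
  rw [← ENNReal.ofReal_add (by positivity) (by positivity),
    ENNReal.ofReal_lt_ofReal_iff (by positivity)] at hV
  have h5 : Real.exp (-(D / 4)) * (8 * L) ≤ κ0 / 8 * L := by
    calc Real.exp (-(D / 4)) * (8 * L) = (Real.exp (-(D / 4)) * 8) * L := by ring
      _ ≤ _ := by gcongr
  rw [div_le_iff₀ hκ0] at hLc
  rw [hη] at hV
  nlinarith

theorem mm_le_pn {n : ℕ} (hn : 1 ≤ n) : mm n ≤ pn n := by
  have hne : {p : ℕ | p.Prime ∧ p ≡ 1 [MOD n]}.Nonempty := by
    obtain ⟨p, hp, -, h⟩ := Nat.exists_prime_gt_modEq_one (k := n) 1 (by omega)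
    exact ⟨p, hp, h⟩
  have h := Nat.sInf_mem hne
  unfold mm
  apply Nat.sInf_le
  refine ⟨h.1.pos, ?_⟩
  show n ∣ Nat.totient (pn n)
  have h1 : (pn n).Prime := h.1
  rw [Nat.totient_prime h1]
  have h2 : 1 ≡ pn n [MOD n] := h.2.symm
  exact (Nat.modEq_iff_dvd' h1.one_lt.le).mp h2

end Pool.Agent.KS6_88.EM
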